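import Pool.Agent.Lib.MP_45faa6_lc.EN.Main

set_option autoImplicit false

open Pool.Agent.Lib.MP_45faa6_lc Pool.Agent.Lib.MP_45faa6_lc.NL Pool.Agent.Lib.MP_45faa6_lc.EN in
/-- 3SAT has a constant-query verifier with `log n + log log (2 + v ^ 3 / n) + O(1)` coins, for
formulas of size `n` with `v` variables. -/
theorem Pool.Agent.Results.MP_45faa6_lc.EntropyBound.result :
    ∃ β : ℝ, 0 < β ∧ β < 1 ∧ ∃ D E : ℝ, InPCP 1 β
      (fun φ : CNF => Real.logb 2 (csize φ) +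
        Real.logb 2 (Real.logb 2 (2 + (nvars φ : ℝ) ^ 3 / csize φ)) + D)
      (fun _ => E) ThreeSAT ThreeSATᶜ :=
  Pool.Agent.Lib.MP_45faa6_lc.EN.main
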