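import Pool.Agent.Lib.MP_45faa6_lc.Main

set_option autoImplicit false

open Pool.Agent.Lib.MP_45faa6_lc in
/-- Completeness can be made perfect with no extra coins and a bounded number of extra queries. -/
theorem Pool.Agent.Results.MP_45faa6_lc.PerfectCompleteness.result
    {X : Type} [N487b59b3 X] (α β : ℝ) (hβ : 0 ≤ β) (hαβ : β < α) (hα : α ≤ 1)
    (r q : X → ℝ) (Y N : Set X) (h : InPCP α β r q Y N) :
    InPCP 1 (1 - (α - β) / 322) r (fun x => q x + 10 * Real.logb 2 (1 / (α - β)) + 70) Y N :=
  perfect hαβ hα hβ h
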