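import Pool.Agent.Lib.MP_45faa6_lc.TR.STwo

set_option autoImplicit false

open Pool.Agent.Lib.MP_45faa6_lc Pool.Agent.Lib.MP_45faa6_lc.NL in
/-- For every soundness `β > 0` and all polynomial-time bounds `s ≥ 2` and `w ≥ 1`, 3SAT has a
verifier with `log (1 + m log m / (s log s)) + O(1)` coins and `O(s)` queries to symbols of `O(w)`
bits, where `m = ⌈n / w⌉` for formulas of size `n`. -/
theorem Pool.Agent.Results.MP_45faa6_lc.Tradeoff.result :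
    ∃ D : ℝ, ∀ β : ℝ, 0 < β → ∃ E : ℝ, ∀ s w : CNF → ℕ,
      N68a2faeb.IsPolyTime (fun φ => List.replicate (s φ) true) →
      N68a2faeb.IsPolyTime (fun φ => List.replicate (w φ) true) →
      (∀ φ, 2 ≤ s φ) → (∀ φ, 1 ≤ w φ) →
      InSymPCP 1 β
        (fun φ : CNF => Real.logb 2 (1 + ⌈(csize φ : ℝ) / w φ⌉₊ *
          Real.logb 2 ⌈(csize φ : ℝ) / w φ⌉₊ / (s φ * Real.logb 2 (s φ))) + D)
        (fun φ => E * s φ) (fun φ => D * w φ) ThreeSAT ThreeSATᶜ :=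
  Pool.Agent.Lib.MP_45faa6_lc.TR.mainS_all

open Pool.Agent.Lib.MP_45faa6_lc Pool.Agent.Lib.MP_45faa6_lc.NL in
/-- The case `w = 1`, for verifiers that read bits. -/
theorem Pool.Agent.Results.MP_45faa6_lc.Tradeoff.bits :
    ∃ D : ℝ, ∀ β : ℝ, 0 < β → ∃ E : ℝ, ∀ s : CNF → ℕ,
      N68a2faeb.IsPolyTime (fun φ => List.replicate (s φ) true) → (∀ φ, 2 ≤ s φ) →
      InPCP 1 β
        (fun φ : CNF => Real.logb 2 (1 + csize φ * Real.logb 2 (csize φ) /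
          (s φ * Real.logb 2 (s φ))) + D)
        (fun φ => E * s φ) ThreeSAT ThreeSATᶜ :=
  let ⟨_, h⟩ := Pool.Agent.Results.MP_45faa6_lc.Tradeoff.result
  ⟨_, fun β hβ => let ⟨_, h'⟩ := h β hβ; ⟨_, Pool.Agent.Lib.MP_45faa6_lc.TR.bits_of h'⟩⟩

open Pool.Agent.Lib.MP_45faa6_lc Pool.Agent.Lib.MP_45faa6_lc.NL in
/-- The case `s ≈ log n / log log n`: `log n + O(1)` coins and `O(log n / log log n)` queries. -/
theorem Pool.Agent.Results.MP_45faa6_lc.Tradeoff.linear_coins :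
    ∃ D : ℝ, ∀ β : ℝ, 0 < β → ∃ E : ℝ, InPCP 1 β (fun φ : CNF => Real.logb 2 (csize φ) + D)
      (fun φ => E * (1 + Real.logb 2 (csize φ) / Real.logb 2 (Real.logb 2 (csize φ))))
      ThreeSAT ThreeSATᶜ :=
  let ⟨_, h⟩ := Pool.Agent.Results.MP_45faa6_lc.Tradeoff.bits
  ⟨_, fun β hβ => let ⟨_, h'⟩ := h β hβ; ⟨_, Pool.Agent.Lib.MP_45faa6_lc.TR.lin_coins h'⟩⟩

open Pool.Agent.Lib.MP_45faa6_lc Pool.Agent.Lib.MP_45faa6_lc.NL in
/-- The case `s ≈ n / k`: 3SAT reduces to any constant gap in the clique number `O(k)` of a graph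
on `O(k) 2 ^ O(n / k + k)` vertices whose vertex and adjacency test takes polynomial time in `φ`. -/
theorem Pool.Agent.Results.MP_45faa6_lc.Tradeoff.clique (β : ℝ) (hβ : 0 < β) :
    ∃ C : ℝ, ∀ k : ℕ, 1 ≤ k →
      ∃ (R : CNF → ℕ) (A : CNF × (List Bool × List Bool) × (List Bool × List Bool) → Bool),
        N68a2faeb.IsPolyTime (fun φ => List.replicate (R φ) true) ∧ N68a2faeb.IsPolyTime A ∧
        ∀ φ, (2 : ℝ) ^ R φ ≤ C * k ∧
          (∀ u, A (φ, u, u) = true →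
            u.1.length = R φ ∧ (u.2.length : ℝ) ≤ C * (csize φ / k + k)) ∧
          (φ ∈ ThreeSAT → 2 ^ R φ ≤ (SimpleGraph.fromRel fun u v : {u // A (φ, u, u) = true} =>
            A (φ, u.1, v.1) = true).cliqueNum) ∧
          (φ ∉ ThreeSAT → ((SimpleGraph.fromRel fun u v : {u // A (φ, u, u) = true} =>
            A (φ, u.1, v.1) = true).cliqueNum : ℝ) ≤ β * 2 ^ R φ) :=
  let ⟨_, h⟩ := Pool.Agent.Results.MP_45faa6_lc.Tradeoff.bits
  let ⟨_, h'⟩ := h β hβ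
  Pool.Agent.Lib.MP_45faa6_lc.TR.clique_gap h'

open Pool.Agent.Lib.MP_45faa6_lc Pool.Agent.Lib.MP_45faa6_lc.NL in
/-- The case `s = 2`, with two queries: `O(m log m)` binary constraints on symbols of `O(w)` bits. -/
theorem Pool.Agent.Results.MP_45faa6_lc.Tradeoff.two_queries :
    ∃ β : ℝ, β < 1 ∧ ∃ D : ℝ, ∀ w : CNF → ℕ,
      N68a2faeb.IsPolyTime (fun φ => List.replicate (w φ) true) → (∀ φ, 1 ≤ w φ) →
      InSymPCP 1 β (fun φ : CNF => Real.logb 2 (1 + ⌈(csize φ : ℝ) / w φ⌉₊ *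
        Real.logb 2 ⌈(csize φ : ℝ) / w φ⌉₊) + D) (fun _ => 2) (fun φ => D * w φ)
        ThreeSAT ThreeSATᶜ :=
  let ⟨_, h⟩ := Pool.Agent.Results.MP_45faa6_lc.Tradeoff.result
  let ⟨_, h'⟩ := h (1 / 2) one_half_pos
  Pool.Agent.Lib.MP_45faa6_lc.TR.two_of_sym one_half_lt_one h'
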