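import Pool.Agent.Lib.MP_45faa6_lc.DP.Main

set_option autoImplicit false

open Pool.Agent.Lib.MP_45faa6_lc.NL in
/-- For `1 ≤ r ≤ k`, 3SAT has proofs of `k` symbols of `O((n + k ^ 3) / r)` bits that are checked by
reading two symbols, with perfect completeness and soundness `O(√(r / k))`. -/
theorem Pool.Agent.Results.MP_45faa6_lc.TwoSymbols.result :
    ∃ C : ℕ, ∀ k r : ℕ, 1 ≤ r → r ≤ k →
      ∃ V : CNF × (ℕ × List Bool) × (ℕ × List Bool) → Bool, N68a2faeb.IsPolyTime V ∧ ∀ φ : CNF,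
        (φ ∈ ThreeSAT → ∃ π : Fin k → List Bool,
          (∀ i, r * (π i).length ≤ C * (csize φ + k ^ 3)) ∧
          ∀ i j : Fin k, V (φ, (i, π i), (j, π j)) = true) ∧
        (φ ∉ ThreeSAT → ∀ π : Fin k → List Bool,
          (Finset.univ.filter fun p : Fin k × Fin k =>
            V (φ, (p.1, π p.1), (p.2, π p.2)) = true).card ^ 2 ≤ C * r * k ^ 3) :=
  Pool.Agent.Lib.MP_45faa6_lc.DP.main

open Pool.Agent.Lib.MP_45faa6_lc.NL in
/-- Every constant soundness, with symbols of `O(n / k + k ^ 2)` bits. -/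
theorem Pool.Agent.Results.MP_45faa6_lc.TwoSymbols.every_beta (β : ℝ) (hβ : 0 < β) :
    ∃ E : ℕ, ∀ k : ℕ, E ≤ k →
      ∃ V : CNF × (ℕ × List Bool) × (ℕ × List Bool) → Bool, N68a2faeb.IsPolyTime V ∧ ∀ φ : CNF,
        (φ ∈ ThreeSAT → ∃ π : Fin k → List Bool,
          (∀ i, k * (π i).length ≤ E * (csize φ + k ^ 3)) ∧
          ∀ i j : Fin k, V (φ, (i, π i), (j, π j)) = true) ∧
        (φ ∉ ThreeSAT → ∀ π : Fin k → List Bool,
          ((Finset.univ.filter fun p : Fin k × Fin k =>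
            V (φ, (p.1, π p.1), (p.2, π p.2)) = true).card : ℝ) ≤ β * k ^ 2) := by
  obtain ⟨C, h⟩ := Pool.Agent.Results.MP_45faa6_lc.TwoSymbols.result
  obtain ⟨T, hT⟩ := exists_nat_gt (C / β ^ 2)
  have h0 : 0 < T := Nat.cast_pos.1 (lt_of_le_of_lt (by positivity) hT)
  rw [div_lt_iff₀ (by positivity)] at hT
  refine ⟨2 * T * (C + 1), fun k hk => ?_⟩
  have h1 : 1 ≤ k / T := (Nat.le_div_iff_mul_le h0).2 (by nlinarith)
  have h2 : k ≤ 2 * T * (k / T) := by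
    have := Nat.lt_mul_div_succ k h0
    nlinarith
  have h3 : (T : ℝ) * (k / T : ℕ) ≤ k := by exact_mod_cast Nat.mul_div_le k T
  obtain ⟨V, hV, h⟩ := h k (k / T) h1 (Nat.div_le_self _ _)
  refine ⟨V, hV, fun φ => ⟨fun hφ => ((h φ).1 hφ).imp fun π hπ => ⟨fun i => ?_, hπ.2⟩,
    fun hφ π => ?_⟩⟩
  · calc _ ≤ 2 * T * (k / T * (π i).length) := (Nat.mul_le_mul_right _ h2).trans_eq (by ring)
      _ ≤ 2 * T * ((C + 1) * (csize φ + k ^ 3)) := Nat.mul_le_mul_left _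
          ((hπ.1 i).trans (Nat.mul_le_mul_right _ (Nat.le_succ C)))
      _ = _ := by ring
  · refine (pow_le_pow_iff_left₀ (by positivity) (by positivity) two_ne_zero).1
      (((Nat.cast_pow _ 2).symm.trans_le (Nat.cast_le.2 ((h φ).2 hφ π))).trans ?_)
    rw [Nat.cast_mul, Nat.cast_mul, Nat.cast_pow]
    calc _ ≤ T * β ^ 2 * (k / T : ℕ) * (k : ℝ) ^ 3 := by gcongr
      _ = β ^ 2 * (T * (k / T : ℕ)) * (k : ℝ) ^ 3 := by ring
      _ ≤ β ^ 2 * k * (k : ℝ) ^ 3 := by gcongr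
      _ = _ := by ring
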